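import Pool.Agent.helper58.DC.Spec1

/-!
# dq:PI, elementary facts on product subgroups of `T → G`
-/

set_option autoImplicit false

open Pool.Agent.helper58.DC

namespace Pool.Agent.helper27.DC

section
variable {G T : Type} [Group G] (P : T → Subgroup G)

theorem PI_mem (x : T → G) : x ∈ (Subgroup.pi Set.univ P : Subgroup (T → G)) ↔ ∀ t, x t ∈ P t :=
  ⟨fun h t => h t (Set.mem_univ t), fun h t _ => h t⟩

open Classical in
theorem PI_single (t : T) (y : G) :
    (Pi.mulSingle t y : T → G) ∈ (Subgroup.pi Set.univ P : Subgroup (T → G)) ↔ y ∈ P t := by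
  rw [PI_mem]
  constructor
  · intro h
    have h1 := h t
    rwa [Pi.mulSingle_eq_same] at h1
  · intro h s
    by_cases hs : s = t
    · subst hs
      rwa [Pi.mulSingle_eq_same]
    · rw [Pi.mulSingle_eq_of_ne hs]
      exact (P s).one_mem

end

theorem PI : PI_stmt := by
  intro G T _ _ _ p P Q
  classical
  refine ⟨?_, ?_, ?_, ?_, ?_⟩
  · ext g
    rw [PI_mem, Subgroup.mem_normalizer_iff]
    constructor
    · intro h t
      rw [Subgroup.mem_normalizer_iff]
      intro y
      have h1 := h (Pi.mulSingle t y)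
      have h2 : g * Pi.mulSingle t y * g⁻¹ = Pi.mulSingle t (g t * y * (g t)⁻¹) := by
        funext s
        by_cases hs : s = t
        · subst hs
          simp
        · simp [Pi.mulSingle_eq_of_ne hs]
      rw [h2] at h1
      exact (PI_single P t y).symm.trans (h1.trans (PI_single P t _))
    · intro h x
      have h1 : ∀ t, x t ∈ P t ↔ g t * x t * (g t)⁻¹ ∈ P t := fun t =>
        (Subgroup.mem_normalizer_iff.1 (h t)) (x t)
      exact (PI_mem P x).trans ((forall_congr' h1).trans (PI_mem P (g * x * g⁻¹)).symm)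
  · constructor
    · intro h t y
      obtain ⟨k, hk⟩ := h ⟨Pi.mulSingle t (y : G), (PI_single P t y).2 y.2⟩
      refine ⟨k, Subtype.ext ?_⟩
      have h1 : (Pi.mulSingle t (y : G) : T → G) ^ p ^ k = 1 := congrArg Subtype.val hk
      have h2 := congrFun h1 t
      rw [Pi.pow_apply, Pi.mulSingle_eq_same] at h2
      exact h2
    · intro h x
      have h1 : ∀ t, ∃ k : ℕ, ((x : T → G) t) ^ p ^ k = 1 := by
        intro t
        obtain ⟨k, hk⟩ := h t ⟨(x : T → G) t, (PI_mem P _).1 x.2 t⟩
        exact ⟨k, congrArg Subtype.val hk⟩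
      choose k hk using h1
      refine ⟨∑ t, k t, Subtype.ext (funext fun t => ?_)⟩
      have h2 : k t ≤ ∑ t, k t := Finset.single_le_sum (f := k) (fun _ _ => Nat.zero_le _)
        (Finset.mem_univ t)
      show ((x : T → G) t) ^ p ^ (∑ t, k t) = 1
      obtain ⟨c, hc⟩ := pow_dvd_pow p h2
      rw [hc, pow_mul, hk, one_pow]
  · constructor
    · intro h t y hy
      exact (PI_single Q t y).1 (h ((PI_single P t y).2 hy))
    · intro h x hx
      exact (PI_mem Q x).2 fun t => h t ((PI_mem P x).1 hx t)
  · intro t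
    ext y
    constructor
    · rintro ⟨x, hx, rfl⟩
      exact (PI_mem P x).1 hx t
    · intro hy
      refine ⟨Pi.mulSingle t y, (PI_single P t y).2 hy, ?_⟩
      show (Pi.mulSingle t y : T → G) t = y
      rw [Pi.mulSingle_eq_same]
  · have e : (Subgroup.pi Set.univ P : Subgroup (T → G)) ≃ (∀ t, P t) :=
      { toFun := fun x t => ⟨(x : T → G) t, (PI_mem P _).1 x.2 t⟩
        invFun := fun x => ⟨fun t => (x t : G), (PI_mem P _).2 fun t => (x t).2⟩
        left_inv := fun x => rfl
        right_inv := fun x => rfl }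
    rw [Nat.card_congr e, Nat.card_pi]

end Pool.Agent.helper27.DC
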